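import Pool.Agent.Q237.ArrChkS
import Pool.Agent.Q237.ArrChkT
import Pool.Agent.Q237.ArrChkC
import Pool.Agent.Q237.ArrChkG

/-!
# The edge-isoperimetric inequality fails in chamber graphs of planes in general position in `ℝ³`

The definitions `GenPos`, `chambers`, `Adjacent`, `edgeBoundary` are in
`Pool.Agent.Q237.ArrTheory`.
-/

namespace Pool.Agent.Results.MP_90133a_co.ChamberIso

open Pool.Agent.Q237.Arr

/-- The inequality of Q1 in dimension `d`: for every arrangement of hyperplanes in general position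
in `ℝ^d`, every set `S` of at most half of the chambers with `|S| = ∑_{i ≤ d} C(k,i)`, `k ≥ d - 1`,
has `|∂S| ≥ ∑_{i ≤ d-1} C(k,i)`. -/
def Inequality (d : ℕ) : Prop :=
  ∀ (n : ℕ) (a : Fin n → Fin d → ℝ) (b : Fin n → ℝ), GenPos a b →
    ∀ S ⊆ chambers a b, 2 * S.encard ≤ (chambers a b).encard →
      ∀ k : ℕ, d - 1 ≤ k → S.encard = ((∑ i ∈ Finset.range (d + 1), k.choose i : ℕ) : ℕ∞) →
        ((∑ i ∈ Finset.range d, k.choose i : ℕ) : ℕ∞) ≤ (edgeBoundary a b S).encard

/-- The inequality fails for `d = 3`: there is an arrangement of `28` planes in general position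
in `ℝ³` (with `3683` chambers) and a set of `1794 = ∑_{i ≤ 3} C(22,i)` chambers whose edge boundary
has at most `253 < 254 = ∑_{i ≤ 2} C(22,i)` edges. -/
theorem result :
    (∃ (a : Fin 28 → Fin 3 → ℝ) (b : Fin 28 → ℝ), GenPos a b ∧ (chambers a b).encard = 3683 ∧
      ∃ S ⊆ chambers a b, S.encard = ((∑ i ∈ Finset.range 4, (22).choose i : ℕ) : ℕ∞) ∧
        (edgeBoundary a b S).encard < ((∑ i ∈ Finset.range 3, (22).choose i : ℕ) : ℕ∞)) ∧
    ¬ Inequality 3 := by
  have hGP : GenPos (nrm planes) (off planes) :=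
    genPos_of_check planes (by rw [lenP]; norm_num) gDP
  have hsum : mSS.length + mTT.length = ∑ k ∈ Finset.range 4, planes.length.choose k := by
    rw [lenS, lenT, lenP]
    decide +kernel
  have hcnt : cntL trT planes.length mSS ≤ 253 := by
    rw [lenP]
    exact cntST
  obtain ⟨hC, S, hS, hScard, hSb⟩ := finite_check planes pSS pTT mSS mTT trT 253 chk_S chk_T
    incS incT eqT disjST hsum hcnt
  have e1 : (∑ k ∈ Finset.range 4, planes.length.choose k : ℕ) = 3683 := by
    rw [lenP]; decide +kernel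
  have e2 : (∑ i ∈ Finset.range 4, (22).choose i : ℕ) = 1794 := by decide +kernel
  have e3 : (∑ i ∈ Finset.range 3, (22).choose i : ℕ) = 254 := by decide +kernel
  rw [e1] at hC
  rw [lenS] at hScard
  have hlt : (edgeBoundary (nrm planes) (off planes) S).encard < ((254 : ℕ) : ℕ∞) :=
    lt_of_le_of_lt hSb (by norm_num)
  have key : ∃ (a : Fin 28 → Fin 3 → ℝ) (b : Fin 28 → ℝ), GenPos a b ∧
      (chambers a b).encard = 3683 ∧
      ∃ S ⊆ chambers a b, S.encard = ((∑ i ∈ Finset.range 4, (22).choose i : ℕ) : ℕ∞) ∧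
        (edgeBoundary a b S).encard < ((∑ i ∈ Finset.range 3, (22).choose i : ℕ) : ℕ∞) := by
    rw [e2, e3]
    have hl : planes.length = 28 := lenP
    have main : ∀ m : ℕ, ∀ (a : Fin m → Fin 3 → ℝ) (b : Fin m → ℝ), m = 28 → GenPos a b →
        (chambers a b).encard = 3683 → (∃ S ⊆ chambers a b, S.encard = ((1794 : ℕ) : ℕ∞) ∧
        (edgeBoundary a b S).encard < ((254 : ℕ) : ℕ∞)) →
        ∃ (a : Fin 28 → Fin 3 → ℝ) (b : Fin 28 → ℝ), GenPos a b ∧
        (chambers a b).encard = 3683 ∧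
        ∃ S ⊆ chambers a b, S.encard = ((1794 : ℕ) : ℕ∞) ∧
        (edgeBoundary a b S).encard < ((254 : ℕ) : ℕ∞) := by
      intro m a b hm h1 h2 h3
      subst hm
      exact ⟨a, b, h1, h2, h3⟩
    exact main _ _ _ hl hGP (by exact_mod_cast hC) ⟨S, hS, hScard, hlt⟩
  refine ⟨key, ?_⟩
  intro h
  obtain ⟨a, b, hgp, hc, S, hS, h1, h2⟩ := key
  have h3 := h 28 a b hgp S hS (by
    rw [h1, hc, e2]
    norm_num) 22 (by norm_num) h1
  exact absurd h3 (not_le.mpr h2)

end Pool.Agent.Results.MP_90133a_co.ChamberIso
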